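import Mathlib
import Pool.Agent.TH285.BD.Asym

/-!
# MP_e52733_co: the maximum Boolean dimension of an antichain plus `n` points
-/

namespace Pool.Agent.Results.MP_e52733_co.BooleanDimTwoTerm

open Pool.Agent.TH285.BD

/-- `f n`, the supremum of the Boolean dimensions of the finite posets that are an antichain plus
`n` points, is their maximum, and for all `n ≥ 2` it lies between `n / log₂ (n + 1)` and
`n / log₂ n + C n / (log₂ n) ^ 2`. -/
theorem result :
    (∀ n, IsGreatest (bdims n) (f n)) ∧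
    ∃ C : ℝ, ∀ n : ℕ, 2 ≤ n →
      (n : ℝ) / Real.logb 2 (n + 1) ≤ f n ∧
      (f n : ℝ) ≤ n / Real.logb 2 n + C * (n / (Real.logb 2 n) ^ 2) := by
  refine ⟨f_isGreatest, ?_⟩
  obtain ⟨C, hC⟩ := f_upper_real
  exact ⟨C, fun n hn => ⟨f_lower_real n, hC n hn⟩⟩

end Pool.Agent.Results.MP_e52733_co.BooleanDimTwoTerm
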